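import Pool.Agent.LibAG25.W3s

/-!
Assembly of the family of germs, part 5: the family, the special points.
-/

open Matrix Complex Filter Topology
open scoped ContDiff

set_option linter.unusedSectionVars false

namespace AG25

open ZQ38 AD19
open AD67 (VarX IsLoc IsMon genAt IsCov HFam)

variable {ι : Type} [Fintype ι] [DecidableEq ι] {X : Type} [TopologicalSpace X] {d s M : ℕ}
  {wt p : ι → ℤ} {Q : Matrix ι ι ℚ} {π : X → Fin d → ℂ} {Φ : X → (Fin d → ℂ) → Matrix ι ι ℂ}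
  {F : MvPolynomial (Fin d) ℂ} {S : X → Finset (Submodule ℚ (Matrix ι ι ℚ))}

theorem jj_one (ε : ℝ) : US38.jj (fun _ => ((1 : ℝ) : ℂ)) (fun _ => 0) ε = fun _ => 0 := by
  funext z
  rw [US38.jj, SP38.dz_const]
  simp

variable (c : Par wt p) (h : Setup wt p Q F s π Φ S M)
include c h

theorem ineq_all (x : X) (b : ℂ → Fin d → ℂ) (t : ℂ) (hb : AnalyticAt ℂ b t) (hbt : b t = π x)
    (hG : Gp (NN c h) x b t) {L : ℝ}
    (hL : 12 * (M : ℝ) * (Fintype.card ι : ℝ) ^ 2 * EG c Q (fun t => Φ x (b t)) t ≤ L) :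
    ∃ hh : Fin M → ℝ, (∀ j, 0 ≤ hh j) ∧
      (∀ j, ‖TT c h x j (b t) (deriv b t)‖ ≤ √(hh j) * NN c h x j (b t)) ∧
      (∀ j (ε : ℝ), 0 < ε → -(2 * hh j) ≤
        US38.rho (US38.jj (fun t => ((NN c h x j (b t) : ℝ) : ℂ))
          (fun t => TT c h x j (b t) (deriv b t)) ε) t) ∧
      3 * ∑ j, hh j ≤ L := by
  obtain ⟨D, r, hD, htD, hve, hml, hty, -, -⟩ := disc_loc c h x hb hbt
  obtain ⟨hl, ht⟩ := m_lie c h.var x
  have hE0 : 0 ≤ EG c Q (fun t => Φ x (b t)) t := EG_nn c (hve.mhs t htD)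
  let hh : Fin M → ℝ := pad (em c h) (0 : ℝ)
    (fun x n => Ef c (PK c h x n.1) (fun z => Φ x (b z)) t) x
  have h1 : ∀ n : BB c h x, hh (em c h x n) = Ef c (PK c h x n.1) (fun z => Φ x (b z)) t :=
    fun n => pad_apply x n
  have h2 : ∀ j, (∀ n, em c h x n ≠ j) → hh j = 0 := fun j hj => pad_of_not hj
  have h3 : ∀ n : BB c h x, Ef c (PK c h x n.1) (fun z => Φ x (b z)) t ≤
      4 * (Fintype.card ι : ℝ) ^ 2 * EG c Q (fun t => Φ x (b t)) t := fun n =>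
    Ef_le' c hD hve hl ht hml (PK c h x n.1) htD
  refine ⟨hh, fun j => ?_, fun j => ?_, fun j ε hε => ?_, ?_⟩
  · rcases pad_cases (em c h) x j with ⟨n, rfl⟩ | hj
    · rw [h1]
      exact (disc_all c h x n.1 hb hbt (w_le c h x b t hb hbt hG n)).1
    · rw [h2 j hj]
  · rcases pad_cases (em c h) x j with ⟨n, rfl⟩ | hj
    · rw [h1, TT, NN, pad_apply, pad_apply]
      exact (disc_all c h x n.1 hb hbt (w_le c h x b t hb hbt hG n)).2.2.1
    · rw [h2 j hj, TT, pad_of_not hj, norm_zero, Real.sqrt_zero, zero_mul]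
  · rcases pad_cases (em c h) x j with ⟨n, rfl⟩ | hj
    · rw [h1, TT, NN, pad_apply, pad_apply]
      exact (disc_all c h x n.1 hb hbt (w_le c h x b t hb hbt hG n)).2.2.2 ε hε
    · rw [h2 j hj, TT, NN, pad_of_not hj, pad_of_not hj, jj_one, US38.rho, SP38.dzb_const]
      simp
  · have h4 := pad_sum_le (e := em c h) (by positivity) h1 h2 h3
    calc 3 * ∑ j, hh j ≤ 3 * (M * (4 * (Fintype.card ι : ℝ) ^ 2 *
          EG c Q (fun t => Φ x (b t)) t)) := by linarith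
      _ = 12 * (M : ℝ) * (Fintype.card ι : ℝ) ^ 2 * EG c Q (fun t => Φ x (b t)) t := by ring
      _ ≤ L := hL

/-- **The family of germs.** -/
noncomputable def fam {A : ℝ} (u : X → (Fin d → ℂ) → ℝ)
    (huc : ∀ x, ∀ᶠ x' in 𝓝 x, ∀ᶠ v in 𝓝 (π x'), u x' v = u x v)
    (hus : ∀ (x : X) (b : ℂ → Fin d → ℂ) (t : ℂ), AnalyticAt ℂ b t → b t = π x →
      ContDiffAt ℝ ∞ (fun t => u x (b t)) t)
    (huE : ∀ (x : X) (b : ℂ → Fin d → ℂ) (t : ℂ), AnalyticAt ℂ b t → b t = π x →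
      12 * (M : ℝ) * (Fintype.card ι : ℝ) ^ 2 * EG c Q (fun t => Φ x (b t)) t ≤
        (SP38.dzb (SP38.dz (fun t => ((u x (b t) : ℝ) : ℂ))) t).re)
    (hgr : ∃ C : ℝ, ∀ x, (∑ j, Real.log (1 + NN c h x j (π x))) + u x (π x) ≤
      C + A * Real.log (1 + ‖π x‖)) : HFam π (Fin M) A where
  N := NN c h
  T := TT c h
  u := u
  G := Gp (NN c h)
  nn := NN_nn c h
  compat x := by
    filter_upwards [compat c h x, huc x] with x' h1 h2
    obtain ⟨σ, hσ⟩ := h1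
    exact ⟨σ, by filter_upwards [hσ, h2] with v h3 h4 using ⟨h3, h4⟩⟩
  G_germ := Gp_germ
  G_loc := Gp_loc (fun x => by
    filter_upwards [compat c h x] with x' h1
    obtain ⟨σ, hσ⟩ := h1
    exact ⟨σ, hσ.mono fun v hv j => (hv j).1⟩) (NN_dich c h)
  G_base := Gp_base h.cov (fun x => by
    filter_upwards [compat c h x] with x' h1
    obtain ⟨σ, hσ⟩ := h1
    exact ⟨σ, hσ.mono fun v hv j => (hv j).1⟩) (NN_dens c h)
  smN x b t hb hbt _ j := NN_smooth c h x b t hb hbt j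
  smT x b t hb hbt hG j := TT_smooth c h x b t hb hbt hG j
  smu x b t hb hbt _ := hus x b t hb hbt
  iso x b t hb hbt hG j := Gp_iso (NN_dich c h) x b t hb hbt hG j
  ineq x b t hb hbt hG := ineq_all c h x b t hb hbt hG (huE x b t hb hbt)
  growth := hgr

/-- each function of the family is attached to an ideal, or is the constant `1` -/
theorem NN_cases (x : X) (j : Fin M) :
    (∃ n : {n // n ∈ S x}, NN c h x j = fun v => Nf c (PK c h x n) (Φ x v)) ∨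
      NN c h x j = fun _ => 1 := by
  rcases pad_cases (em c h) x j with ⟨n, rfl⟩ | hj
  · refine Or.inl ⟨n.1, ?_⟩
    rw [NN, pad_apply]
    rfl
  · exact Or.inr (by rw [NN, pad_of_not hj])

/-- the special points are double zeros of a member of the family -/
theorem special (x : X) {n : Submodule ℚ (Matrix ι ι ℚ)} (hn : n ∈ S x)
    (hs : mtLie wt p (Φ x (π x)) ⊓ Low ℚ wt ≤ n) :
    ∃ (j : Fin M) (C : ℝ), ∀ᶠ v in 𝓝 (π x), NN c h x j v ≤ C * ‖v - π x‖ ^ 2 := by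
  obtain ⟨r, hr, hve, hml, hty⟩ := loc_facts c h x
  obtain ⟨hl, ht⟩ := m_lie c h.var x
  have hx0 : π x ∈ Metric.ball (π x) r := Metric.mem_ball_self hr
  have h1 : ¬ Zr c h x ⟨n, hn⟩ := special_ne (c := c) hr hve (h.max x n hn)
    (fun v hv => hty v hv n hn) (PK c h x ⟨n, hn⟩) hs
  have h2 : Nf c (PK c h x ⟨n, hn⟩) (Φ x (π x)) = 0 :=
    special_zero (hve.mhs _ hx0) hl ht (hml _ hx0) (h.max x n hn).le _ hs
  obtain ⟨C, hC⟩ := Nf_quad (c := c) Metric.isOpen_ball hve hl ht hml (PK c h x ⟨n, hn⟩) hx0 h2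
  let b : BB c h x := ⟨⟨n, hn⟩, h1⟩
  have e : NN c h x (em c h x b) = fN c h x ⟨n, hn⟩ := pad_apply x b
  refine ⟨em c h x b, C, ?_⟩
  rw [e]
  exact hC

end AG25
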