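import Pool.Agent.LibZQ38.BPb
import Pool.Agent.LibZQ38.B10

/-! Real analytic families of matrices over an open set of a normed space. -/

open Matrix Complex Filter Topology
open MW38 (Fl Tri blk dg)

set_option linter.unusedSectionVars false

namespace AG25

open ZQ38

variable {ι : Type} [Fintype ι] [DecidableEq ι] {wt p : ι → ℤ} {K : ℕ}
  {E : Type} [NormedAddCommGroup E] [NormedSpace ℝ E] {Ω : Set E}

/-- entrywise real analytic on `Ω` -/
def AnE (Ω : Set E) (A : E → Matrix ι ι ℂ) : Prop := ∀ i j, AnalyticOnNhd ℝ (fun z => A z i j) Ω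

theorem AnE.const (A : Matrix ι ι ℂ) : AnE Ω (fun _ => A) := fun _ _ => analyticOnNhd_const

theorem AnE.add {A B : E → Matrix ι ι ℂ} (hA : AnE Ω A) (hB : AnE Ω B) :
    AnE Ω (fun z => A z + B z) := fun i j => (hA i j).add (hB i j)

theorem AnE.sub {A B : E → Matrix ι ι ℂ} (hA : AnE Ω A) (hB : AnE Ω B) :
    AnE Ω (fun z => A z - B z) := fun i j => (hA i j).sub (hB i j)

theorem AnE.mul {A B : E → Matrix ι ι ℂ} (hA : AnE Ω A) (hB : AnE Ω B) :
    AnE Ω (fun z => A z * B z) := by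
  intro i j z hz
  simp only [Matrix.mul_apply]
  exact Finset.analyticAt_fun_sum _ fun k _ => (hA i k z hz).mul (hB k j z hz)

theorem AnE.smul (c : ℂ) {A : E → Matrix ι ι ℂ} (hA : AnE Ω A) : AnE Ω (fun z => c • A z) := by
  intro i j z hz
  simp only [Matrix.smul_apply, smul_eq_mul]
  exact analyticAt_const.mul (hA i j z hz)

theorem AnE.sum {β : Type*} (s : Finset β) {A : β → E → Matrix ι ι ℂ} (hA : ∀ i ∈ s, AnE Ω (A i)) :
    AnE Ω (fun z => ∑ i ∈ s, A i z) := by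
  intro i j z hz
  simp only [Matrix.sum_apply]
  exact Finset.analyticAt_fun_sum _ fun k hk => hA k hk i j z hz

theorem AnE.bar {A : E → Matrix ι ι ℂ} (hA : AnE Ω A) : AnE Ω (fun z => ZQ38.bar (A z)) := by
  intro i j z hz
  have h1 : AnalyticAt ℝ (fun w : ℂ => (starRingEnd ℂ) w) (A z i j) :=
    Complex.conjCLE.toContinuousLinearMap.analyticAt _
  exact AnalyticAt.comp (g := fun w : ℂ => (starRingEnd ℂ) w) (f := fun z => A z i j) h1
    (hA i j z hz)

theorem AnE.det {G : E → Matrix ι ι ℂ} (h : AnE Ω G) :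
    AnalyticOnNhd ℝ (fun z => (G z).det) Ω := by
  intro z hz
  simp only [Matrix.det_apply']
  refine Finset.analyticAt_fun_sum _ fun σ _ => analyticAt_const.mul ?_
  exact Finset.analyticAt_fun_prod _ fun i _ => h (σ i) i z hz

theorem AnE.inv {A : E → Matrix ι ι ℂ} (hA : AnE Ω A) (hu : ∀ z ∈ Ω, IsUnit (A z)) :
    AnE Ω (fun z => (A z)⁻¹) := by
  intro i j
  have e : (fun z => (A z)⁻¹ i j) = fun z => ((A z).det)⁻¹ * (A z).adjugate i j := by
    funext z
    rw [Matrix.inv_def, Matrix.smul_apply, Ring.inverse_eq_inv', smul_eq_mul]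
  rw [e]
  refine AnalyticOnNhd.mul (AnalyticOnNhd.inv hA.det fun z hz => ?_) ?_
  · exact ((Matrix.isUnit_iff_isUnit_det _).1 (hu z hz)).ne_zero
  · simp only [Matrix.adjugate_apply]
    refine AnE.det (G := fun z => (A z).updateRow j (Pi.single i 1)) fun k l => ?_
    by_cases hk : k = j
    · subst hk
      simp only [Matrix.updateRow_self]
      exact analyticOnNhd_const
    · simp only [Matrix.updateRow_ne hk]
      exact hA k l

theorem AnE.mono {Ω' : Set E} (h : Ω' ⊆ Ω) {A : E → Matrix ι ι ℂ} (hA : AnE Ω A) : AnE Ω' A :=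
  fun i j => (hA i j).mono h

/-- composition with a real analytic map -/
theorem AnE.comp {E' : Type} [NormedAddCommGroup E'] [NormedSpace ℝ E'] {U : Set E'}
    {A : E → Matrix ι ι ℂ} (hA : AnE Ω A) {b : E' → E} (hb : AnalyticOnNhd ℝ b U)
    (hm : Set.MapsTo b U Ω) : AnE U (fun t => A (b t)) :=
  fun i j => (hA i j).comp hb hm

theorem AnE.dg {Φ : E → Matrix ι ι ℂ} (hΦ : AnE Ω Φ) : AnE Ω (fun z => MW38.dg wt (Φ z)) := by
  intro i j
  by_cases h : wt i = wt j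
  · have e : (fun z => MW38.dg wt (Φ z) i j) = fun z => Φ z i j := by
      funext z
      simp [MW38.dg, h]
    rw [e]
    exact hΦ i j
  · have e : (fun z => MW38.dg wt (Φ z) i j) = fun _ => (0 : ℂ) := by
      funext z
      simp [MW38.dg, h]
    rw [e]
    exact analyticOnNhd_const

theorem AnE.lm {Φ : E → Matrix ι ι ℂ} (hΦ : AnE Ω Φ) (hu : ∀ z ∈ Ω, IsUnit (Φ z))
    (ht : ∀ z ∈ Ω, Tri wt (Φ z)) : AnE Ω (fun z => Lm wt (Φ z)) := by
  unfold Lm
  exact hΦ.mul (hΦ.dg.inv fun z hz => MW38.dg_isUnit (hu z hz) (ht z hz))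

theorem AnE.pge {P : E → ℤ → Matrix ι ι ℂ} (hPa : ∀ a, AnE Ω (fun z => P z a)) (a : ℤ) :
    AnE Ω (fun z => Pge K (P z) a) := by
  unfold Pge
  exact AnE.sum _ fun b _ => hPa b

theorem AnE.pls {P : E → ℤ → Matrix ι ι ℂ} (hPa : ∀ a, AnE Ω (fun z => P z a)) (a : ℤ) :
    AnE Ω (fun z => Pls K (P z) a) := by
  unfold Pls
  exact AnE.sum _ fun b _ => hPa b

theorem AnE.dd {Φ : E → Matrix ι ι ℂ} {P : E → ℤ → Matrix ι ι ℂ}
    (hL : AnE Ω (fun z => Lm wt (Φ z))) (hL' : AnE Ω (fun z => Lm wt (ZQ38.bar (Φ z))))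
    (hPa : ∀ a, AnE Ω (fun z => P z a)) (a k : ℤ) (j : ℕ) :
    AnE Ω (fun z => Dd wt K (Φ z) (P z) a k j) := by
  induction j with
  | zero =>
    simp only [Dd]
    exact ((hL.sub hL').mul (hPa a)).mul (AnE.const _)
  | succ j ih =>
    simp only [Dd]
    exact (ih.sub (((hL.mul (AnE.pge hPa a)).mul (AnE.const _)).mul ih)).sub
      (((hL'.mul (AnE.pls hPa a)).mul (AnE.const _)).mul ih)

theorem AnE.hh {Φ : E → Matrix ι ι ℂ} {P : E → ℤ → Matrix ι ι ℂ}
    (hL : AnE Ω (fun z => Lm wt (Φ z))) (hL' : AnE Ω (fun z => Lm wt (ZQ38.bar (Φ z))))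
    (hPa : ∀ a, AnE Ω (fun z => P z a)) (J : ℕ) :
    AnE Ω (fun z => HH wt K (Φ z) (P z) J) := by
  unfold HH
  refine AnE.sum _ fun a _ => AnE.sum _ fun k _ => ?_
  unfold Hd
  refine ((hL.mul (hPa a)).mul (AnE.const _)).sub (AnE.sum _ fun j _ => ?_)
  exact ((hL.mul (AnE.pge hPa a)).mul (AnE.const _)).mul (AnE.dd hL hL' hPa a k j)

theorem AnE.aag {Φ : E → Matrix ι ι ℂ} (hΦ : AnE Ω Φ) (s : Equiv.Perm ι) (k : ℤ) :
    AnE Ω (fun z => AAg wt p s k (Φ z)) := by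
  intro i j
  by_cases h1 : k ≤ p j
  · by_cases h2 : wt i = wt j
    · have h3 : (fun z => AAg wt p s k (Φ z) i j) = fun z => Φ z i j := by
        funext z
        simp only [AAg, Matrix.of_apply, MW38.dg, if_pos h1, if_pos h2]
      rw [h3]
      exact hΦ i j
    · have h3 : (fun z => AAg wt p s k (Φ z) i j) = fun _ => (0 : ℂ) := by
        funext z
        simp only [AAg, Matrix.of_apply, MW38.dg, if_pos h1, if_neg h2]
      rw [h3]
      exact analyticOnNhd_const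
  · by_cases h2 : wt i = wt (s j)
    · have h3 : (fun z => AAg wt p s k (Φ z) i j) = fun z => ZQ38.bar (Φ z) i (s j) := by
        funext z
        simp only [AAg, Matrix.of_apply, MW38.dg, if_neg h1, if_pos h2]
        rfl
      rw [h3]
      exact hΦ.bar i (s j)
    · have h3 : (fun z => AAg wt p s k (Φ z) i j) = fun _ => (0 : ℂ) := by
        funext z
        simp only [AAg, Matrix.of_apply, MW38.dg, if_neg h1, if_neg h2, map_zero]
      rw [h3]
      exact analyticOnNhd_const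

theorem AnE.pig {Q : Matrix ι ι ℝ} {Φ : E → Matrix ι ι ℂ} (hΦ : AnE Ω Φ)
    (hm : ∀ z ∈ Ω, MW38.MHS wt p Q (Φ z)) {s : Equiv.Perm ι}
    (hs : ∀ j, wt (s j) = wt j ∧ p (s j) = wt j - p j) (a : ℤ) :
    AnE Ω (fun z => PIg wt p s a (Φ z)) := by
  have hA := AnE.aag (wt := wt) (p := p) hΦ s a
  exact (hA.mul (AnE.const _)).mul (hA.inv fun z hz => AAg_isUnit (hm z hz) hs a)

theorem AnE.ppg {Q : Matrix ι ι ℝ} {Φ : E → Matrix ι ι ℂ} (hΦ : AnE Ω Φ)
    (hm : ∀ z ∈ Ω, MW38.MHS wt p Q (Φ z)) {s : Equiv.Perm ι}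
    (hs : ∀ j, wt (s j) = wt j ∧ p (s j) = wt j - p j) (a : ℤ) :
    AnE Ω (fun z => PPg wt p s (Φ z) a) :=
  (AnE.pig hΦ hm hs a).sub (AnE.pig hΦ hm hs (a + 1))

/-- Deligne's splitting is real analytic -/
theorem AnE.hhP {Q : Matrix ι ι ℝ} {Φ : E → Matrix ι ι ℂ} (hΦ : AnE Ω Φ)
    (hm : ∀ z ∈ Ω, MW38.MHS wt p Q (Φ z)) {s : Equiv.Perm ι}
    (hs : ∀ j, wt (s j) = wt j ∧ p (s j) = wt j - p j) (K J : ℕ) :
    AnE Ω (fun z => HH wt K (Φ z) (PPg wt p s (Φ z)) J) := by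
  refine AnE.hh (P := fun z => PPg wt p s (Φ z)) ?_ ?_ (AnE.ppg hΦ hm hs) J
  · exact hΦ.lm (fun z hz => (hm z hz).unit) fun z hz => (hm z hz).tri
  · exact hΦ.bar.lm (fun z hz => bar_isUnit (hm z hz).unit) fun z hz => bar_tri (hm z hz).tri

end AG25
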