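import Pool.Agent.LibAG25.E1
import Pool.Agent.LibZQ38.B11
import Pool.Agent.LibZQ38.C8b
import Pool.Agent.LibZL19.Mono

/-! The generic Mumford-Tate Lie algebra of a family over an open set of a normed space. -/

open Matrix Complex Filter Topology
open MW38 (Fl Tri blk dg)

set_option linter.unusedSectionVars false

namespace AG25

open ZQ38

variable {ι : Type} [Fintype ι] [DecidableEq ι] {wt p : ι → ℤ} {K : ℕ}
  {E : Type} [NormedAddCommGroup E] [NormedSpace ℝ E] {Ω : Set E}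
  {Φ : E → Matrix ι ι ℂ} {P : E → ℤ → Matrix ι ι ℂ} {h : E → Matrix ι ι ℂ}

/-- the span of the Mumford-Tate Lie algebras of the points of `Ω` -/
noncomputable def genE (wt p : ι → ℤ) (Φ : E → Matrix ι ι ℂ) (Ω : Set E) :
    Submodule ℚ (Matrix ι ι ℚ) := ⨆ v ∈ Ω, mtLie wt p (Φ v)

/-- the projectors of the graded pieces and Deligne's splitting, real analytic on `Ω` -/
structure OpE (wt p : ι → ℤ) (K : ℕ) (Φ : E → Matrix ι ι ℂ) (P : E → ℤ → Matrix ι ι ℂ)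
    (h : E → Matrix ι ι ℂ) (Ω : Set E) : Prop where
  gr : ∀ z ∈ Ω, GrP wt p K (Φ z) (P z)
  del : ∀ z ∈ Ω, DelH wt p (Φ z) (P z) (h z)
  anP : ∀ a, AnE Ω (fun z => P z a)
  anh : AnE Ω h

theorem mtLie_le_genE {v : E} (hv : v ∈ Ω) : mtLie wt p (Φ v) ≤ genE wt p Φ Ω :=
  le_iSup₂ (f := fun v (_ : v ∈ Ω) => mtLie wt p (Φ v)) v hv

theorem genE_le {L : Submodule ℚ (Matrix ι ι ℚ)} (hL : ∀ v ∈ Ω, mtLie wt p (Φ v) ≤ L) :
    genE wt p Φ Ω ≤ L := iSup₂_le hL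

theorem genE_mono {Ω' : Set E} (hs : Ω' ⊆ Ω) : genE wt p Φ Ω' ≤ genE wt p Φ Ω :=
  genE_le fun _ hv => mtLie_le_genE (hs hv)

theorem OpE.mono (hO : OpE wt p K Φ P h Ω) {Ω' : Set E} (hs : Ω' ⊆ Ω) : OpE wt p K Φ P h Ω' :=
  ⟨fun z hz => hO.gr z (hs hz), fun z hz => hO.del z (hs hz), fun a => (hO.anP a).mono hs,
    hO.anh.mono hs⟩

/-- pull back by a real analytic map -/
theorem OpE.comp (hO : OpE wt p K Φ P h Ω) {E' : Type} [NormedAddCommGroup E'] [NormedSpace ℝ E']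
    {U : Set E'} {b : E' → E} (hb : AnalyticOnNhd ℝ b U) (hm : Set.MapsTo b U Ω) :
    OpE wt p K (fun t => Φ (b t)) (fun t => P (b t)) (fun t => h (b t)) U :=
  ⟨fun z hz => hO.gr _ (hm hz), fun z hz => hO.del _ (hm hz), fun a => (hO.anP a).comp hb hm,
    hO.anh.comp hb hm⟩

theorem OpE.oP (hO : OpE wt p K Φ P h Ω) : AnE Ω (fun z => oP K (P z) (h z)) := by
  have hPG : AnE Ω (fun z => PG K (P z)) := by
    unfold PG
    exact AnE.sum _ fun a _ => AnE.smul _ (hO.anP a)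
  exact (hO.anh.mul hPG).mul (hO.anh.inv fun z hz => (hO.del z hz).un.isUnit)

theorem OpE.oQ (hO : OpE wt p K Φ P h Ω) : AnE Ω (fun z => oQ wt K (P z) (h z)) := by
  have hPG : AnE Ω (fun z => PG K (P z)) := by
    unfold PG
    exact AnE.sum _ fun a _ => AnE.smul _ (hO.anP a)
  exact (hO.anh.mul ((AnE.const _).sub hPG)).mul (hO.anh.inv fun z hz => (hO.del z hz).un.isUnit)

/-- a linear functional of a real analytic family -/
theorem AnE.dual {f : E → Matrix ι ι ℂ} (hf : AnE Ω f) (φ : Module.Dual ℂ (Matrix ι ι ℂ)) :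
    AnalyticOnNhd ℝ (fun z => φ (f z)) Ω := by
  have e : (fun z => φ (f z)) =
      fun z => ∑ i : ι, ∑ j : ι, f z i j * φ (Matrix.single i j (1:ℂ)) := by
    funext z
    conv_lhs => rw [Matrix.matrix_eq_sum_single (f z)]
    rw [map_sum]
    refine Finset.sum_congr rfl fun i _ => ?_
    rw [map_sum]
    refine Finset.sum_congr rfl fun j _ => ?_
    have e2 : Matrix.single i j (f z i j) = (f z i j) • Matrix.single i j (1:ℂ) := by
      rw [Matrix.smul_single, smul_eq_mul, mul_one]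
    rw [e2, map_smul, smul_eq_mul]
  rw [e]
  refine Finset.analyticOnNhd_fun_sum _ fun i _ => ?_
  refine Finset.analyticOnNhd_fun_sum _ fun j _ => ?_
  exact (hf i j).mul analyticOnNhd_const

/-- identity theorem for membership in a subspace -/
theorem AnE.ident (hc : IsPreconnected Ω) {f : E → Matrix ι ι ℂ} (hf : AnE Ω f)
    (W : Submodule ℂ (Matrix ι ι ℂ)) {z₀ : E} (hz₀ : z₀ ∈ Ω)
    (hev : ∀ᶠ z in 𝓝 z₀, f z ∈ W) : ∀ z ∈ Ω, f z ∈ W := by
  intro z hz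
  rw [← Subspace.forall_mem_dualAnnihilator_apply_eq_zero_iff W (f z)]
  intro φ hφ
  have h1 : (fun z => φ (f z)) =ᶠ[𝓝 z₀] 0 := by
    filter_upwards [hev] with w hw
    exact (Submodule.mem_dualAnnihilator φ).1 hφ _ hw
  exact (hf.dual φ).eqOn_zero_of_preconnected_of_eventuallyEq_zero hc hz₀ h1 hz

/-- not being in a subspace is an open condition -/
theorem AnE.notMem {f : E → Matrix ι ι ℂ} (hf : AnE Ω f) (W : Submodule ℂ (Matrix ι ι ℂ))
    {z₀ : E} (hz₀ : z₀ ∈ Ω) (h0 : f z₀ ∉ W) : ∀ᶠ z in 𝓝 z₀, f z ∉ W := by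
  rw [← Subspace.forall_mem_dualAnnihilator_apply_eq_zero_iff W (f z₀)] at h0
  push Not at h0
  obtain ⟨φ, hφ, hφ0⟩ := h0
  have h1 := (hf.dual φ z₀ hz₀).continuousAt.eventually_ne hφ0
  filter_upwards [h1] with z hz hW
  exact hz ((Submodule.mem_dualAnnihilator φ).1 hφ _ hW)

/-- the points with the generic Mumford-Tate Lie algebra are residual -/
theorem OpE.resid [CompleteSpace E] (hO : OpE wt p K Φ P h Ω) (hΩ : IsOpen Ω)
    (hc : IsPreconnected Ω) :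
    ∀ᶠ z in residual E, z ∈ Ω → mtLie wt p (Φ z) = genE wt p Φ Ω := by
  have hC : Countable (Submodule ℚ (Matrix ι ι ℚ)) := B10_countable
  have key : ∀ L : Submodule ℚ (Matrix ι ι ℚ), IsLie L → ¬ genE wt p Φ Ω ≤ L →
      ∀ᶠ z in residual E, z ∈ Ω → ¬ (ZQ38.oP K (P z) (h z) ∈ cx L ∧
        ZQ38.oQ wt K (P z) (h z) ∈ cx L) := by
    intro L hL hm
    set Z : Set E := {z | z ∈ Ω ∧ (ZQ38.oP K (P z) (h z) ∈ cx L ∧
        ZQ38.oQ wt K (P z) (h z) ∈ cx L)} with hZ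
    have hopen : IsOpen (Ω \ Z) := by
      rw [isOpen_iff_eventually]
      rintro z₀ ⟨hz₀, hz₀'⟩
      have h1 : ¬ (ZQ38.oP K (P z₀) (h z₀) ∈ cx L ∧ ZQ38.oQ wt K (P z₀) (h z₀) ∈ cx L) :=
        fun h => hz₀' ⟨hz₀, h⟩
      rw [not_and_or] at h1
      rcases h1 with h1 | h1
      · filter_upwards [hO.oP.notMem (cx L) hz₀ h1, hΩ.mem_nhds hz₀] with z hz hzΩ
        exact ⟨hzΩ, fun h => hz h.2.1⟩
      · filter_upwards [hO.oQ.notMem (cx L) hz₀ h1, hΩ.mem_nhds hz₀] with z hz hzΩ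
        exact ⟨hzΩ, fun h => hz h.2.2⟩
    have hU : IsOpen ((Ω \ Z) ∪ (closure Ω)ᶜ) := hopen.union isClosed_closure.isOpen_compl
    have hd : Dense ((Ω \ Z) ∪ (closure Ω)ᶜ) := by
      rw [dense_iff_inter_open]
      intro V hV hVne
      by_contra hcon
      rw [Set.not_nonempty_iff_eq_empty] at hcon
      obtain ⟨y, hy⟩ := hVne
      have hyc : y ∈ closure Ω := by
        by_contra hyc
        have : y ∈ V ∩ ((Ω \ Z) ∪ (closure Ω)ᶜ) := ⟨hy, Or.inr hyc⟩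
        rw [hcon] at this
        exact this
      obtain ⟨z₁, hz₁V, hz₁⟩ := mem_closure_iff.1 hyc V hV hy
      have hev : ∀ᶠ z in 𝓝 z₁, ZQ38.oP K (P z) (h z) ∈ cx L ∧
          ZQ38.oQ wt K (P z) (h z) ∈ cx L := by
        filter_upwards [hV.mem_nhds hz₁V, hΩ.mem_nhds hz₁] with z hzV hzΩ
        by_contra hz
        have : z ∈ V ∩ ((Ω \ Z) ∪ (closure Ω)ᶜ) := ⟨hzV, Or.inl ⟨hzΩ, fun h => hz h.2⟩⟩
        rw [hcon] at this
        exact this
      refine hm (genE_le fun z hz => ?_)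
      rw [mtLie_le_iff (hO.gr z hz) (hO.del z hz) hL]
      exact ⟨hO.oP.ident hc (cx L) hz₁ (hev.mono fun _ h => h.1) z hz,
        hO.oQ.ident hc (cx L) hz₁ (hev.mono fun _ h => h.2) z hz⟩
    have hres : (Ω \ Z) ∪ (closure Ω)ᶜ ∈ residual E := residual_of_dense_open hU hd
    filter_upwards [hres] with z hz hzΩ hz'
    rcases hz with hz | hz
    · exact hz.2 ⟨hzΩ, hz'⟩
    · exact hz (subset_closure hzΩ)
  have h2 : ∀ᶠ z in residual E, ∀ L : Submodule ℚ (Matrix ι ι ℚ), IsLie L →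
      ¬ genE wt p Φ Ω ≤ L → z ∈ Ω → ¬ (ZQ38.oP K (P z) (h z) ∈ cx L ∧
        ZQ38.oQ wt K (P z) (h z) ∈ cx L) := by
    rw [eventually_countable_forall]
    intro L
    by_cases hL : IsLie L
    · by_cases hm : genE wt p Φ Ω ≤ L
      · exact Eventually.of_forall fun z _ h => absurd hm h
      · filter_upwards [key L hL hm] with z hz _ _
        exact hz
    · exact Eventually.of_forall fun z h => absurd h hL
  filter_upwards [h2] with z hz hzΩ
  refine le_antisymm (mtLie_le_genE hzΩ) ?_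
  by_contra hcon
  exact hz _ mtLie_isLie hcon hzΩ ⟨oP_mem (hO.gr z hzΩ) (hO.del z hzΩ),
    oQ_mem (hO.gr z hzΩ) (hO.del z hzΩ)⟩

/-- every nonempty open subset contains a point with the generic Mumford-Tate Lie algebra -/
theorem OpE.exists_gen [CompleteSpace E] (hO : OpE wt p K Φ P h Ω) (hΩ : IsOpen Ω)
    (hc : IsPreconnected Ω) {V : Set E} (hV : IsOpen V) (hVΩ : V ⊆ Ω) (hne : V.Nonempty) :
    ∃ z ∈ V, mtLie wt p (Φ z) = genE wt p Φ Ω := by
  have hd := dense_of_mem_residual (hO.resid hΩ hc)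
  obtain ⟨z, hz, hz'⟩ := hd.inter_open_nonempty V hV hne
  exact ⟨z, hz, hz' (hVΩ hz)⟩

theorem OpE.genE_eq [CompleteSpace E] (hO : OpE wt p K Φ P h Ω) (hΩ : IsOpen Ω)
    (hc : IsPreconnected Ω) {V : Set E} (hV : IsOpen V) (hVΩ : V ⊆ Ω) (hne : V.Nonempty) :
    genE wt p Φ V = genE wt p Φ Ω := by
  obtain ⟨z, hz, hz'⟩ := hO.exists_gen hΩ hc hV hVΩ hne
  refine le_antisymm (genE_mono hVΩ) ?_
  rw [← hz']
  exact mtLie_le_genE hz

theorem OpE.isLie [CompleteSpace E] (hO : OpE wt p K Φ P h Ω) (hΩ : IsOpen Ω)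
    (hc : IsPreconnected Ω) (hne : Ω.Nonempty) :
    IsLie (genE wt p Φ Ω) ∧ ∀ A ∈ genE wt p Φ Ω, Tri wt A := by
  obtain ⟨z, hz, hz'⟩ := hO.exists_gen hΩ hc hΩ subset_rfl hne
  rw [← hz']
  exact ⟨mtLie_isLie, mtLie_tri (hO.gr z hz) (hO.del z hz)⟩

theorem OpE.op_mem (hO : OpE wt p K Φ P h Ω) {z : E} (hz : z ∈ Ω) :
    ZQ38.oP K (P z) (h z) ∈ cx (genE wt p Φ Ω) ∧
      ZQ38.oQ wt K (P z) (h z) ∈ cx (genE wt p Φ Ω) :=
  ⟨cx_mono (mtLie_le_genE hz) (oP_mem (hO.gr z hz) (hO.del z hz)),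
    cx_mono (mtLie_le_genE hz) (oQ_mem (hO.gr z hz) (hO.del z hz))⟩

theorem mtLie_map {M M' : Matrix ι ι ℂ} {g : Matrix ι ι ℚ} (hg : IsUnit g) (ht : Tri wt g)
    (hF : ∀ a, Fl p M' a = (Fl p M a).map (Matrix.mulVecLin (g.map (algebraMap ℚ ℂ)))) :
    mtLie wt p M' = (mtLie wt p M).map (ZL19.cjg g g⁻¹) := by
  obtain ⟨h1, h2⟩ := C8b_inv hg
  ext A
  rw [mtLie_conj hg ht hF]
  constructor
  · intro hA
    refine ⟨g⁻¹ * A * g, hA, ?_⟩
    show g * (g⁻¹ * A * g) * g⁻¹ = A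
    rw [← mul_assoc, ← mul_assoc, h1, one_mul, mul_assoc, h1, mul_one]
  · rintro ⟨B, hB, rfl⟩
    show g⁻¹ * (g * B * g⁻¹) * g ∈ mtLie wt p M
    rw [← mul_assoc, ← mul_assoc, h2, one_mul, mul_assoc, h2, mul_one]
    exact hB

/-- conjugation by a rational matrix -/
theorem genE_conj {Φ' : E → Matrix ι ι ℂ} {g : Matrix ι ι ℚ} (hg : IsUnit g) (ht : Tri wt g)
    (hF : ∀ z ∈ Ω, ∀ a, Fl p (Φ' z) a =
      (Fl p (Φ z) a).map (Matrix.mulVecLin (g.map (algebraMap ℚ ℂ)))) :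
    genE wt p Φ' Ω = (genE wt p Φ Ω).map (ZL19.cjg g g⁻¹) := by
  unfold genE
  simp only [Submodule.map_iSup]
  refine iSup_congr fun z => iSup_congr fun hz => ?_
  exact mtLie_map hg ht (hF z hz)

end AG25
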