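import Pool.Agent.LibAD67.C0

/-!
The generic discs of a family of germs on a covering: abstract form. `N x j` is a germ of function at
`π x`, the disc `b` is generic at `t` if no `N x j` vanishes identically along `b` near `t`.
-/

open Complex Filter Topology

set_option linter.unusedSectionVars false

namespace AG25

open AD67

variable {X : Type} [TopologicalSpace X] {d : ℕ} {F : MvPolynomial (Fin d) ℂ} {s : ℕ}
  {π : X → Fin d → ℂ}

theorem cov_cont (hc : IsCov F s π) : Continuous π := by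
  rw [continuous_iff_continuousAt]
  intro x
  exact (hc.cov (π x) (hc.ne x)).continuousAt

/-- the points near the fibre -/
theorem cov_near (hc : IsCov F s π) {v : Fin d → ℂ} (hv : MvPolynomial.eval v F ≠ 0)
    {A : X → Prop} (h : ∀ x, π x = v → ∀ᶠ x' in 𝓝 x, A x') :
    ∀ᶠ v' in 𝓝 v, ∀ x', π x' = v' → A x' := by
  obtain ⟨sec, h1, h2⟩ := cover_sections hc hv
  have h3 : ∀ᶠ v' in 𝓝 v, ∀ x ∈ π ⁻¹' {v}, A (sec x v') := by
    rw [Filter.eventually_all_finite (hc.fin v)]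
    intro x hx
    obtain ⟨h4, h5⟩ := h1 x hx
    have h6 : Tendsto (sec x) (𝓝 v) (𝓝 x) := by
      have := h5.tendsto
      rwa [h4] at this
    exact h6.eventually (h x hx)
  filter_upwards [h2, h3] with v' h4 h5 x' hx'
  obtain ⟨x, hx, rfl⟩ := h4.2.1 x' hx'
  exact h5 x hx

/-- a property of the points of `X` which holds locally over a residual set -/
theorem cov_resid (hc : IsCov F s π) {A : X → Prop}
    (h : ∀ x, ∃ R ∈ residual (Fin d → ℂ), ∀ᶠ x' in 𝓝 x, π x' ∈ R → A x') :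
    ∀ᶠ v in residual (Fin d → ℂ), ∀ x, π x = v → A x := by
  have key : ∀ v : Fin d → ℂ, ∃ U : Set (Fin d → ℂ), ∃ R ∈ residual (Fin d → ℂ), IsOpen U ∧
      (MvPolynomial.eval v F ≠ 0 → v ∈ U) ∧ ∀ x', π x' ∈ U → π x' ∈ R → A x' := by
    intro v
    by_cases hv : MvPolynomial.eval v F ≠ 0
    · choose R hR hA using h
      have hfin : (⋂ x ∈ π ⁻¹' {v}, R x) ∈ residual (Fin d → ℂ) :=
        (Filter.biInter_mem (hc.fin v)).2 fun x _ => hR x
      have h2 : ∀ᶠ v' in 𝓝 v, ∀ x', π x' = v' → π x' ∈ (⋂ x ∈ π ⁻¹' {v}, R x) → A x' := by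
        refine cov_near hc hv fun x hx => ?_
        filter_upwards [hA x] with x' hx' hx''
        exact hx' (Set.mem_iInter₂.1 hx'' x hx)
      obtain ⟨U, hU, hUo, hvU⟩ := mem_nhds_iff.1 h2
      exact ⟨U, _, hfin, hUo, fun _ => hvU, fun x' hx' hx'' => hU hx' x' rfl hx''⟩
    · exact ⟨∅, Set.univ, Filter.univ_mem, isOpen_empty, fun h => absurd h hv,
        fun x' hx' => absurd hx' (Set.notMem_empty _)⟩
  choose U R hR hUo hvU hA using key
  obtain ⟨T, hT, hTU⟩ := TopologicalSpace.isOpen_iUnion_countable U hUo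
  have h1 : (⋂ v ∈ T, R v) ∈ residual (Fin d → ℂ) :=
    (countable_bInter_mem hT).2 fun v _ => hR v
  filter_upwards [h1] with v hv x hx
  have h2 : v ∈ ⋃ i, U i := Set.mem_iUnion.2 ⟨v, hvU v (hx ▸ hc.ne x)⟩
  rw [← hTU] at h2
  obtain ⟨i, hi, hvi⟩ := Set.mem_iUnion₂.1 h2
  exact hA i x (hx ▸ hvi) (hx ▸ Set.mem_iInter₂.1 hv i hi)

variable {J : Type} [Fintype J]

/-- the disc `b` is generic at `t` for the germs at `x` -/
def Gp (N : X → J → (Fin d → ℂ) → ℝ) (x : X) (b : ℂ → (Fin d → ℂ)) (t : ℂ) : Prop :=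
  ∀ j, ∃ᶠ t' in 𝓝 t, N x j (b t') ≠ 0

variable {N : X → J → (Fin d → ℂ) → ℝ}

theorem Gp_germ : ∀ (x : X) (b b' : ℂ → Fin d → ℂ) (t : ℂ), b =ᶠ[𝓝 t] b' → Gp N x b t → Gp N x b' t := by
  intro x b b' t hb h j
  have h1 : ∀ᶠ t' in 𝓝 t, N x j (b t') ≠ 0 → N x j (b' t') ≠ 0 := by
    filter_upwards [hb] with t' ht' h2
    rwa [← ht']
  exact (h j).mp h1

/-- the dichotomy along a disc is stable -/
theorem dich_near {f : ℂ → ℝ} {t : ℂ}
    (h : (∀ᶠ t' in 𝓝 t, f t' = 0) ∨ ∀ᶠ t' in 𝓝[≠] t, f t' ≠ 0) :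
    ∀ᶠ t' in 𝓝 t, ((∃ᶠ s in 𝓝 t, f s ≠ 0) ↔ ∃ᶠ s in 𝓝 t', f s ≠ 0) := by
  rcases h with h | h
  · filter_upwards [h.eventually_nhds] with t' ht'
    constructor
    · intro h1
      exact absurd h1 (by
        rw [Filter.not_frequently]
        filter_upwards [h] with s hs
        simpa using hs)
    · intro h1
      exact absurd h1 (by
        rw [Filter.not_frequently]
        filter_upwards [ht'] with s hs
        simpa using hs)
  · have h0 : ∃ᶠ s in 𝓝 t, f s ≠ 0 := h.frequently.filter_mono nhdsWithin_le_nhds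
    rw [eventually_nhdsWithin_iff] at h
    filter_upwards [h] with t' ht'
    refine ⟨fun _ => ?_, fun _ => h0⟩
    by_cases e : t' = t
    · rw [e]
      exact h0
    · intro h1
      exact (ht' e) (by simpa using h1.self_of_nhds)

theorem Gp_loc
    (compat : ∀ x, ∀ᶠ x' in 𝓝 x, ∃ σ : Equiv.Perm J, ∀ᶠ v in 𝓝 (π x'),
      ∀ j, N x' (σ j) v = N x j v)
    (dich : ∀ (x : X) (b : ℂ → Fin d → ℂ) (t : ℂ), AnalyticAt ℂ b t → b t = π x → ∀ j,
      (∀ᶠ t' in 𝓝 t, N x j (b t') = 0) ∨ ∀ᶠ t' in 𝓝[≠] t, N x j (b t') ≠ 0) :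
    ∀ (x : X) (b : ℂ → Fin d → ℂ) (t : ℂ), AnalyticAt ℂ b t → b t = π x →
    ∀ᶠ q : ℂ × X in 𝓝 (t, x), b q.1 = π q.2 → (Gp N x b t ↔ Gp N q.2 b q.1) := by
  intro x b t hb hbt
  have h1 : ∀ᶠ t' in 𝓝 t, ∀ j, ((∃ᶠ s in 𝓝 t, N x j (b s) ≠ 0) ↔
      ∃ᶠ s in 𝓝 t', N x j (b s) ≠ 0) := by
    rw [Filter.eventually_all]
    exact fun j => dich_near (dich x b t hb hbt j)
  have h2 : ∀ᶠ t' in 𝓝 t, ContinuousAt b t' := by
    filter_upwards [hb.eventually_analyticAt] with t' ht'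
    exact ht'.continuousAt
  rw [nhds_prod_eq]
  filter_upwards [(h1.and h2).prod_mk (compat x)] with q hq hbq
  obtain ⟨⟨h3, h4⟩, σ, h5⟩ := hq
  rw [← hbq] at h5
  have h6 : ∀ᶠ s in 𝓝 q.1, ∀ j, N q.2 (σ j) (b s) = N x j (b s) := h4.tendsto.eventually h5
  have h7 : ∀ j, ((∃ᶠ s in 𝓝 t, N x j (b s) ≠ 0) ↔
      ∃ᶠ s in 𝓝 q.1, N q.2 (σ j) (b s) ≠ 0) := by
    intro j
    rw [h3 j]
    refine Filter.frequently_congr ?_
    filter_upwards [h6] with s hs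
    rw [hs j]
  constructor
  · intro h j
    have h8 := (h7 (σ.symm j)).1 (h (σ.symm j))
    rwa [Equiv.apply_symm_apply] at h8
  · intro h j
    exact (h7 j).2 (h (σ j))

theorem Gp_base (hc : IsCov F s π)
    (compat : ∀ x, ∀ᶠ x' in 𝓝 x, ∃ σ : Equiv.Perm J, ∀ᶠ v in 𝓝 (π x'),
      ∀ j, N x' (σ j) v = N x j v)
    (dens : ∀ x j, ∃ R ∈ residual (Fin d → ℂ), ∀ᶠ v in 𝓝 (π x), v ∈ R → N x j v ≠ 0) :
    ∀ᶠ v in residual (Fin d → ℂ), ∀ x, π x = v → ∀ b t, AnalyticAt ℂ b t → b t = v →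
      Gp N x b t := by
  have hπ := cov_cont hc
  have h1 : ∀ᶠ v in residual (Fin d → ℂ), ∀ x, π x = v → ∀ j, N x j (π x) ≠ 0 := by
    refine cov_resid hc fun x => ?_
    choose R hR hN using dens x
    refine ⟨⋂ j, R j, (Filter.iInter_mem).2 hR, ?_⟩
    have h2 : ∀ᶠ x' in 𝓝 x, ∀ j, π x' ∈ R j → N x j (π x') ≠ 0 := by
      rw [Filter.eventually_all]
      exact fun j => (hπ.tendsto x).eventually (hN j)
    filter_upwards [h2, compat x] with x' h3 h4 h5 j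
    obtain ⟨σ, hσ⟩ := h4
    have h6 := hσ.self_of_nhds (σ.symm j)
    rw [Equiv.apply_symm_apply] at h6
    rw [h6]
    exact h3 _ (Set.mem_iInter.1 h5 _)
  filter_upwards [h1] with v hv x hx b t hb hbt j
  intro h2
  have h3 : ¬ (N x j (b t) ≠ 0) := h2.self_of_nhds
  rw [hbt, ← hx] at h3
  exact h3 (hv x hx j)

theorem Gp_iso
    (dich : ∀ (x : X) (b : ℂ → Fin d → ℂ) (t : ℂ), AnalyticAt ℂ b t → b t = π x → ∀ j,
      (∀ᶠ t' in 𝓝 t, N x j (b t') = 0) ∨ ∀ᶠ t' in 𝓝[≠] t, N x j (b t') ≠ 0) :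
    ∀ (x : X) (b : ℂ → Fin d → ℂ) (t : ℂ), AnalyticAt ℂ b t → b t = π x → Gp N x b t → ∀ j,
      ∀ᶠ t' in 𝓝[≠] t, N x j (b t') ≠ 0 := by
  intro x b t hb hbt hG j
  rcases dich x b t hb hbt j with h | h
  · exact absurd (hG j) (by
      rw [Filter.not_frequently]
      filter_upwards [h] with s hs
      simpa using hs)
  · exact h

end AG25
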