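import Pool.Agent.LibAG25.E5
import Pool.Agent.LibAD19.G1
import Pool.Agent.LibAD19.N10

/-!
Assembly of the family of germs, part 0: from `VarX` to `VE` on balls, the generic Lie algebra.
-/

open Matrix Complex Filter Topology

set_option linter.unusedSectionVars false

namespace AG25

open ZQ38 AD19
open AD67 (VarX IsLoc IsMon genAt IsCov)

variable {ι : Type} [Fintype ι] [DecidableEq ι] {X : Type} {d : ℕ} {wt p : ι → ℤ}
  {Q : Matrix ι ι ℚ} {π : X → Fin d → ℂ} {Φ : X → (Fin d → ℂ) → Matrix ι ι ℂ}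

theorem ve_ball (h : VarX wt p Q π Φ) (x : X) :
    ∃ r : ℝ, 0 < r ∧ VE wt p Q (Metric.ball (π x) r) (Φ x) := by
  have h1 : ∀ᶠ v in 𝓝 (π x), ∀ i j, AnalyticAt ℂ (fun v => Φ x v i j) v := by
    rw [Filter.eventually_all]
    intro i
    rw [Filter.eventually_all]
    intro j
    exact (h.hol x i j).eventually_analyticAt
  obtain ⟨r, hr, hb⟩ := Metric.eventually_nhds_iff_ball.1 ((h1.and (h.mhs x)).and (h.tr x))
  refine ⟨r, hr, ⟨fun v hv => (hb v hv).1.2, fun i j v hv => (hb v hv).1.1 i j,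
    fun v hv j ξ => ?_⟩⟩
  have e : (fun i => fderiv ℂ (fun v => Φ x v i j) v ξ) =
      ∑ k, ξ k • fun i => fderiv ℂ (fun v => Φ x v i j) v (Pi.single k 1) := by
    funext i
    have h2 : ξ = ∑ k, ξ k • (Pi.single k 1 : Fin d → ℂ) := by
      funext l
      simp [Finset.sum_apply, Pi.single_apply]
    conv_lhs => rw [h2, map_sum]
    rw [Finset.sum_apply]
    refine Finset.sum_congr rfl fun k _ => ?_
    rw [map_smul]
    rfl
  rw [e]
  exact Submodule.sum_mem _ fun k _ => Submodule.smul_mem _ _ ((hb v hv).2 k j)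

theorem ve_mono {Ω Ω' : Set (Fin d → ℂ)} {Ψ : (Fin d → ℂ) → Matrix ι ι ℂ} (h : VE wt p Q Ω Ψ)
    (hs : Ω' ⊆ Ω) : VE wt p Q Ω' Ψ :=
  ⟨fun v hv => h.mhs v (hs hv), fun i j => (h.an i j).mono hs, fun v hv => h.tr v (hs hv)⟩

theorem gLie_congr {E : Type} [TopologicalSpace E] {Ψ Ψ' : E → Matrix ι ι ℂ} {v₀ : E}
    (h : ∀ᶠ v in 𝓝 v₀, Ψ v = Ψ' v) : gLie wt p Ψ v₀ = gLie wt p Ψ' v₀ := by
  have key : ∀ {Ψ Ψ' : E → Matrix ι ι ℂ}, (∀ᶠ v in 𝓝 v₀, Ψ v = Ψ' v) →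
      gLie wt p Ψ v₀ ≤ gLie wt p Ψ' v₀ := by
    intro Ψ Ψ' h
    refine le_iInf₂ fun U hU => ?_
    refine (iInf₂_le (f := fun U (_ : U ∈ 𝓝 v₀) => ⨆ v ∈ U, mtLie wt p (Ψ v))
      (U ∩ {v | Ψ v = Ψ' v}) (Filter.inter_mem hU h)).trans ?_
    refine iSup₂_le fun v hv => ?_
    have h1 : Ψ v = Ψ' v := hv.2
    rw [h1]
    exact le_iSup₂ (f := fun v (_ : v ∈ U) => mtLie wt p (Ψ' v)) v hv.1
  exact le_antisymm (key h) (key (h.mono fun v hv => hv.symm))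

variable (c : Par wt p)
include c

/-- near `π x` the generic Lie algebra is constant, and contains all Lie algebras -/
theorem m_near (h : VarX wt p Q π Φ) (x : X) : ∀ᶠ v in 𝓝 (π x),
    gLie wt p (Φ x) v = gLie wt p (Φ x) (π x) ∧ mtLie wt p (Φ x v) ≤ gLie wt p (Φ x) (π x) := by
  obtain ⟨r, hr, hv⟩ := ve_ball h x
  obtain ⟨h1, h2, -, -, -⟩ := gLie_facts c Metric.isOpen_ball (convex_ball _ _).isPreconnected hv
    (Metric.mem_ball_self hr)
  filter_upwards [Metric.ball_mem_nhds (π x) hr] with v hv'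
  exact ⟨h2 v hv', h1 v hv'⟩

theorem m_lie (h : VarX wt p Q π Φ) (x : X) : IsLie (gLie wt p (Φ x) (π x)) ∧
    ∀ B ∈ gLie wt p (Φ x) (π x), MW38.Tri wt B := by
  obtain ⟨r, hr, hv⟩ := ve_ball h x
  obtain ⟨-, -, -, h4, h5⟩ := gLie_facts c Metric.isOpen_ball (convex_ball _ _).isPreconnected hv
    (Metric.mem_ball_self hr)
  exact ⟨h4, h5⟩

/-- all the local facts on a ball -/
theorem good_ball (h : VarX wt p Q π Φ) (x : X) : ∃ r : ℝ, 0 < r ∧
    VE wt p Q (Metric.ball (π x) r) (Φ x) ∧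
    ∀ v ∈ Metric.ball (π x) r, mtLie wt p (Φ x v) ≤ gLie wt p (Φ x) (π x) := by
  obtain ⟨r, hr, hv⟩ := ve_ball h x
  obtain ⟨h1, -, -, -, -⟩ := gLie_facts c Metric.isOpen_ball (convex_ball _ _).isPreconnected hv
    (Metric.mem_ball_self hr)
  exact ⟨r, hr, hv, h1⟩

/-- the generic Lie algebras at neighbouring points -/
theorem m_conj [TopologicalSpace X] (hπ : Continuous π) (h : VarX wt p Q π Φ) (x : X) :
    ∀ᶠ x' in 𝓝 x, ∀ γ : Matrix ι ι ℚ, IsUnit γ → MW38.Tri wt γ →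
      (∀ᶠ v in 𝓝 (π x'), Φ x' v = γ.map (algebraMap ℚ ℂ) * Φ x v) →
      gLie wt p (Φ x') (π x') = (gLie wt p (Φ x) (π x)).map (ZL19.cjg γ γ⁻¹) := by
  filter_upwards [(hπ.tendsto x).eventually (m_near c h x)] with x' hx' γ hγ hγt hΦ
  rw [gLie_congr hΦ, gLie_cjg hγ hγt, hx'.1]

end AG25
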