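import Mathlib

/-!
Assembly of the family of germs, part 1: families indexed by varying finite types, padded to a fixed
index set.
-/

open Filter Topology

namespace AG25

variable {X : Type} {B : X → Type} {M : ℕ}

/-- a family indexed by `B x`, transported to `Fin M` by `e x` and padded by `dflt` -/
noncomputable def pad {γ : Type*} (e : ∀ x, B x ↪ Fin M) (dflt : γ) (f : ∀ x, B x → γ) (x : X)
    (j : Fin M) : γ := by
  classical
  exact if h : ∃ b, e x b = j then f x h.choose else dflt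

variable {e : ∀ x, B x ↪ Fin M}

theorem pad_apply {γ : Type*} {dflt : γ} {f : ∀ x, B x → γ} (x : X) (b : B x) :
    pad e dflt f x (e x b) = f x b := by
  classical
  have h : ∃ b', e x b' = e x b := ⟨b, rfl⟩
  rw [pad, dif_pos h]
  congr 1
  exact (e x).injective h.choose_spec

theorem pad_of_not {γ : Type*} {dflt : γ} {f : ∀ x, B x → γ} {x : X} {j : Fin M}
    (h : ∀ b, e x b ≠ j) : pad e dflt f x j = dflt := by
  classical
  rw [pad, dif_neg]
  rintro ⟨b, hb⟩
  exact h b hb

theorem pad_cases (e : ∀ x, B x ↪ Fin M) (x : X) (j : Fin M) :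
    (∃ b, e x b = j) ∨ ∀ b, e x b ≠ j := by
  by_cases h : ∃ b, e x b = j
  · exact Or.inl h
  · exact Or.inr fun b hb => h ⟨b, hb⟩

/-- a bijection of the index types extends to a permutation -/
theorem pad_perm (e : ∀ x, B x ↪ Fin M) {x x' : X} (τ : B x ≃ B x') :
    ∃ σ : Equiv.Perm (Fin M), (∀ b, σ (e x b) = e x' (τ b)) ∧
      ∀ j, (∀ b, e x b ≠ j) → ∀ b', e x' b' ≠ σ j := by
  classical
  let E : {j // j ∈ Set.range (e x)} ≃ {j // j ∈ Set.range (e x')} :=
    ((Equiv.ofInjective _ (e x).injective).symm.trans τ).trans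
      (Equiv.ofInjective _ (e x').injective)
  refine ⟨E.extendSubtype, fun b => ?_, fun j hj b' hb' => ?_⟩
  · rw [Equiv.extendSubtype_apply_of_mem E (e x b) ⟨b, rfl⟩]
    show (((Equiv.ofInjective _ (e x').injective)
      (τ ((Equiv.ofInjective _ (e x).injective).symm ⟨e x b, _⟩))) : Fin M) = _
    have h1 : (Equiv.ofInjective _ (e x).injective).symm ⟨e x b, ⟨b, rfl⟩⟩ = b :=
      Equiv.ofInjective_symm_apply (e x).injective b
    rw [h1]
    rfl
  · have hj' : j ∉ Set.range (e x) := fun ⟨b, hb⟩ => hj b hb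
    exact Equiv.extendSubtype_not_mem E j hj' ⟨b', hb'⟩

/-- sums over `Fin M` -/
theorem pad_sum_le {x : X} {f : B x → ℝ} {g : Fin M → ℝ} {C : ℝ} (hC : 0 ≤ C)
    (h1 : ∀ b, g (e x b) = f b) (h2 : ∀ j, (∀ b, e x b ≠ j) → g j = 0) (h3 : ∀ b, f b ≤ C) :
    ∑ j, g j ≤ M * C := by
  calc ∑ j, g j ≤ ∑ _j : Fin M, C := by
        refine Finset.sum_le_sum fun j _ => ?_
        rcases pad_cases e x j with ⟨b, rfl⟩ | h
        · rw [h1]
          exact h3 b
        · rw [h2 j h]
          exact hC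
    _ = M * C := by simp

end AG25
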