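import Pool.Agent.LibAG25.H0
import Pool.Agent.LibAD19.N5d

/-! Invariance of the functions under a rational isometry. -/

open Matrix Complex Filter Topology

set_option linter.unusedSectionVars false

namespace AG25

open ZQ38 AD19
open MW38 (Tri blk)

variable {ι : Type} [Fintype ι] [DecidableEq ι] {wt p : ι → ℤ} {Q : Matrix ι ι ℚ}
  {m n m' n' : Submodule ℚ (Matrix ι ι ℚ)}

theorem n5N (c : Par wt p) {γ : Matrix ι ι ℚ} (hγ : IsUnit γ) (hγt : Tri wt γ)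
    (hγQ : ∀ k, (blk wt k k γ)ᵀ * blk wt k k Q * blk wt k k γ = blk wt k k Q)
    (hlie : IsLie m) (htri : ∀ B ∈ m, Tri wt B) (hn : MaxSt m (m ⊓ Low ℚ wt) n)
    (hm' : m' = m.map (ZL19.cjg γ γ⁻¹)) (hn' : n' = n.map (ZL19.cjg γ γ⁻¹))
    (P : Pk wt Q m n) (P' : Pk wt Q m' n') {A : Matrix ι ι ℂ}
    (hA : MW38.MHS wt p (Q.map (algebraMap ℚ ℝ)) A)
    (hA' : MW38.MHS wt p (Q.map (algebraMap ℚ ℝ)) (γ.map (algebraMap ℚ ℂ) * A))
    (hmA : mtLie wt p A ≤ m) :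
    Nf c P' (γ.map (algebraMap ℚ ℂ) * A) = Nf c P A :=
  N5_Nf hlie htri hn.le hn.ne P P' hγ hγt hγQ hm'.symm hn' hA hA' hmA

/-- a translate of a variation by a constant matrix -/
theorem ve_mulL {E : Type} [NormedAddCommGroup E] [NormedSpace ℂ E] {Ω : Set E}
    {Φ : E → Matrix ι ι ℂ} (hv : VE wt p Q Ω Φ) {γ : Matrix ι ι ℚ}
    (hA' : ∀ v ∈ Ω, MW38.MHS wt p (Q.map (algebraMap ℚ ℝ)) (γ.map (algebraMap ℚ ℂ) * Φ v)) :
    VE wt p Q Ω (fun v => γ.map (algebraMap ℚ ℂ) * Φ v) where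
  mhs := hA'
  an i j v hv' := by
    simp only [Matrix.mul_apply]
    exact Finset.analyticAt_fun_sum _ fun k _ => analyticAt_const.mul (hv.an k j v hv')
  tr v hv' j ξ := by
    have e : (fun i => fderiv ℂ (fun v => (γ.map (algebraMap ℚ ℂ) * Φ v) i j) v ξ) =
        Matrix.mulVecLin (γ.map (algebraMap ℚ ℂ)) (fun i => fderiv ℂ (fun v => Φ v i j) v ξ) := by
      funext i
      show _ = ∑ k, γ.map (algebraMap ℚ ℂ) i k * fderiv ℂ (fun v => Φ v k j) v ξ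
      simp only [Matrix.mul_apply]
      have h1 : ∀ k, DifferentiableAt ℂ (fun v => Φ v k j) v := fun k =>
        (hv.an k j v hv').differentiableAt
      rw [fderiv_fun_sum fun k _ => (h1 k).const_mul _]
      simp only [FunLike.coe_sum, Finset.sum_apply]
      refine Finset.sum_congr rfl fun k _ => ?_
      rw [fderiv_const_mul (h1 k)]
      rfl
    rw [e, Fl_mulL]
    exact Submodule.mem_map_of_mem (hv.tr v hv' j ξ)

theorem n5T (c : Par wt p) {γ : Matrix ι ι ℚ} (hγ : IsUnit γ) (hγt : Tri wt γ)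
    (hγQ : ∀ k, (blk wt k k γ)ᵀ * blk wt k k Q * blk wt k k γ = blk wt k k Q)
    (hlie : IsLie m) (htri : ∀ B ∈ m, Tri wt B) (hn : MaxSt m (m ⊓ Low ℚ wt) n)
    (hm' : m' = m.map (ZL19.cjg γ γ⁻¹)) (hn' : n' = n.map (ZL19.cjg γ γ⁻¹))
    (P : Pk wt Q m n) (P' : Pk wt Q m' n') {D : Set ℂ} (hD : IsOpen D) {Ψ : ℂ → Matrix ι ι ℂ}
    (hv : VE wt p Q D Ψ)
    (hA' : ∀ z ∈ D, MW38.MHS wt p (Q.map (algebraMap ℚ ℝ)) (γ.map (algebraMap ℚ ℂ) * Ψ z))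
    (hm : ∀ z ∈ D, mtLie wt p (Ψ z) ≤ m) {z : ℂ} (hz : z ∈ D) :
    Tf c P' (fun z => γ.map (algebraMap ℚ ℂ) * Ψ z) z = Tf c P Ψ z := by
  have hv' := ve_mulL hv hA'
  exact (N5_Tf hlie htri hn.le hn.ne P P' hγ hγt hγQ hm'.symm hn' hD hv.mhs hA' hm
    (fun i j => (hv.anD P i j).contDiffOn_of_completeSpace)
    (fun i j => (hv'.anD P' i j).contDiffOn_of_completeSpace) hz).1

end AG25
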