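import Pool.Agent.LibAG25.H0
import Pool.Agent.LibAG25.H1
import Pool.Agent.LibAG25.N5s

/-!
Assembly of the family of germs, part 2: the functions attached to the maximal ideals.
-/

open Matrix Complex Filter Topology

set_option linter.unusedSectionVars false

namespace AG25

open ZQ38 AD19
open AD67 (VarX IsLoc IsMon genAt IsCov)

variable {ι : Type} [Fintype ι] [DecidableEq ι] {X : Type} [TopologicalSpace X] {d s M : ℕ}
  {wt p : ι → ℤ} {Q : Matrix ι ι ℚ} {π : X → Fin d → ℂ} {Φ : X → (Fin d → ℂ) → Matrix ι ι ℂ}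
  {F : MvPolynomial (Fin d) ℂ} {S : X → Finset (Submodule ℚ (Matrix ι ι ℚ))}

/-- the hypotheses -/
structure Setup (wt p : ι → ℤ) (Q : Matrix ι ι ℚ) (F : MvPolynomial (Fin d) ℂ) (s : ℕ)
    (π : X → Fin d → ℂ) (Φ : X → (Fin d → ℂ) → Matrix ι ι ℂ)
    (S : X → Finset (Submodule ℚ (Matrix ι ι ℚ))) (M : ℕ) : Prop where
  cov : IsCov F s π
  var : VarX wt p Q π Φ
  loc : IsLoc wt Q π Φ S
  max : ∀ x, ∀ n ∈ S x, MaxSt (gLie wt p (Φ x) (π x)) (gLie wt p (Φ x) (π x) ⊓ Low ℚ wt) n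
  ty : ∀ x, ∀ n ∈ S x, ∀ᶠ v in 𝓝 (π x), TyOK wt p (gLie wt p (Φ x) (π x)) n (Φ x v)
  card : ∀ x, (S x).card ≤ M

variable (c : Par wt p) (h : Setup wt p Q F s π Φ S M)
include c h

theorem pk_exists (x : X) (n : {n // n ∈ S x}) :
    Nonempty (Pk wt Q (gLie wt p (Φ x) (π x)) n.1) := by
  obtain ⟨r, hr, hv⟩ := ve_ball h.var x
  exact exists_Pk c hr hv (h.max x n.1 n.2)

/-- the data attached to the ideal `n` -/
noncomputable def PK (x : X) (n : {n // n ∈ S x}) : Pk wt Q (gLie wt p (Φ x) (π x)) n.1 :=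
  Classical.choice (pk_exists c h x n)

/-- the function attached to the ideal `n` -/
noncomputable def fN (x : X) (n : {n // n ∈ S x}) (v : Fin d → ℂ) : ℝ :=
  Nf c (PK c h x n) (Φ x v)

/-- the form attached to the ideal `n` -/
noncomputable def fT (x : X) (n : {n // n ∈ S x}) (v ξ : Fin d → ℂ) : ℂ :=
  Tf c (PK c h x n) (fun τ => Φ x (v + τ • ξ)) 0

/-- the function vanishes identically -/
def Zr (x : X) (n : {n // n ∈ S x}) : Prop := ∀ᶠ v in 𝓝 (π x), fN c h x n v = 0

/-- the ideals with nonzero function -/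
def BB (x : X) : Type := {n : {n // n ∈ S x} // ¬ Zr c h x n}

theorem emb_exists (x : X) : Nonempty (BB c h x ↪ Fin M) := by
  classical
  have h1 : Fintype.card {n // n ∈ S x} ≤ Fintype.card (Fin M) := by
    rw [Fintype.card_coe, Fintype.card_fin]
    exact h.card x
  obtain ⟨e⟩ := Function.Embedding.nonempty_of_card_le h1
  exact ⟨(Function.Embedding.subtype _).trans e⟩

noncomputable def em (x : X) : BB c h x ↪ Fin M := Classical.choice (emb_exists c h x)

/-- the family of functions -/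
noncomputable def NN (x : X) (j : Fin M) : (Fin d → ℂ) → ℝ :=
  pad (em c h) (fun _ => 1) (fun x b => fN c h x b.1) x j

/-- the family of forms -/
noncomputable def TT (x : X) (j : Fin M) : (Fin d → ℂ) → (Fin d → ℂ) → ℂ :=
  pad (em c h) (fun _ _ => 0) (fun x b => fT c h x b.1) x j

/-- all the local facts at `x` -/
theorem loc_facts (x : X) : ∃ r : ℝ, 0 < r ∧ VE wt p Q (Metric.ball (π x) r) (Φ x) ∧
    (∀ v ∈ Metric.ball (π x) r, mtLie wt p (Φ x v) ≤ gLie wt p (Φ x) (π x)) ∧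
    ∀ v ∈ Metric.ball (π x) r, ∀ n ∈ S x, TyOK wt p (gLie wt p (Φ x) (π x)) n (Φ x v) := by
  obtain ⟨r, hr, h1, h2⟩ := good_ball c h.var x
  have h3 : ∀ᶠ v in 𝓝 (π x), ∀ n ∈ S x, TyOK wt p (gLie wt p (Φ x) (π x)) n (Φ x v) := by
    rw [Filter.eventually_all_finset]
    exact h.ty x
  obtain ⟨r', hr', h4⟩ := Metric.eventually_nhds_iff_ball.1 h3
  refine ⟨min r r', lt_min hr hr', ve_mono h1 (Metric.ball_subset_ball (min_le_left _ _)),
    fun v hv => h2 v (Metric.ball_subset_ball (min_le_left _ _) hv),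
    fun v hv => h4 v (Metric.ball_subset_ball (min_le_right _ _) hv)⟩

theorem fN_nn (x : X) (n : {n // n ∈ S x}) : ∀ᶠ v in 𝓝 (π x), 0 ≤ fN c h x n v := by
  obtain ⟨r, hr, h1, h2, -⟩ := loc_facts c h x
  obtain ⟨hl, ht⟩ := m_lie c h.var x
  filter_upwards [Metric.ball_mem_nhds (π x) hr] with v hv
  exact (Nf_eq (h1.mhs v hv) hl ht (h2 v hv) _).2.1

/-- vanishing is a local property, and otherwise the function is nonzero on a residual set -/
theorem fN_dich (x : X) (n : {n // n ∈ S x}) : Zr c h x n ∨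
    ∃ R ∈ residual (Fin d → ℂ), ∀ᶠ v in 𝓝 (π x), v ∈ R → fN c h x n v ≠ 0 := by
  by_cases hz : Zr c h x n
  · exact Or.inl hz
  · refine Or.inr ?_
    obtain ⟨r, hr, h1, h2, -⟩ := loc_facts c h x
    have h3 := Nf_dense (c := c) Metric.isOpen_ball (convex_ball _ _).isPreconnected h1
      (PK c h x n) (Metric.mem_ball_self hr) hz
    refine ⟨_, h3, ?_⟩
    filter_upwards [Metric.ball_mem_nhds (π x) hr] with v hv hv'
    exact hv' hv

theorem Zr_near (x : X) (n : {n // n ∈ S x}) : ∀ᶠ v₁ in 𝓝 (π x),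
    ((∀ᶠ v in 𝓝 v₁, fN c h x n v = 0) ↔ Zr c h x n) := by
  obtain ⟨r, hr, h1, h2, -⟩ := loc_facts c h x
  filter_upwards [Metric.ball_mem_nhds (π x) hr] with v₁ hv₁
  constructor
  · intro h3
    have h4 := Nf_ident (c := c) Metric.isOpen_ball (convex_ball _ _).isPreconnected h1
      (PK c h x n) hv₁ h3
    filter_upwards [Metric.ball_mem_nhds (π x) hr] with v hv
    exact h4 v hv
  · intro h3
    have h4 := Nf_ident (c := c) Metric.isOpen_ball (convex_ball _ _).isPreconnected h1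
      (PK c h x n) (Metric.mem_ball_self hr) h3
    filter_upwards [Metric.isOpen_ball.mem_nhds hv₁] with v hv
    exact h4 v hv

end AG25
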