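import Pool.Agent.LibAG25.H2

/-!
Assembly of the family of germs, part 3: compatibility.
-/

open Matrix Complex Filter Topology

set_option linter.unusedSectionVars false

namespace AG25

open ZQ38 AD19
open AD67 (VarX IsLoc IsMon genAt IsCov)

variable {ι : Type} [Fintype ι] [DecidableEq ι] {X : Type} [TopologicalSpace X] {d s M : ℕ}
  {wt p : ι → ℤ} {Q : Matrix ι ι ℚ} {π : X → Fin d → ℂ} {Φ : X → (Fin d → ℂ) → Matrix ι ι ℂ}
  {F : MvPolynomial (Fin d) ℂ} {S : X → Finset (Submodule ℚ (Matrix ι ι ℚ))}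

/-- the form only depends on the germ of the disc -/
theorem Tf_germ {m n : Submodule ℚ (Matrix ι ι ℚ)} (c : Par wt p) (P : Pk wt Q m n)
    {Ψ Ψ' : ℂ → Matrix ι ι ℂ} {z : ℂ} (h : ∀ᶠ z' in 𝓝 z, Ψ z' = Ψ' z') :
    Tf c P Ψ z = Tf c P Ψ' z := by
  have h0 : Ψ z = Ψ' z := h.self_of_nhds
  have h1 : SP38.DZ (fun z => Dp c P (Ψ z)) z = SP38.DZ (fun z => Dp c P (Ψ' z)) z := by
    apply SP38.DZ_congr
    filter_upwards [h] with z' hz'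
    rw [hz']
  show US38.hm _ (SP38.DZ (fun z => Dp c P (Ψ z)) z *ᵥ
      (US38.Rm P.d.w (fun a => ZW67.LP (2 * c.K) (Dp c P (Ψ z)) a) *ᵥ US38.imv (ep c P (Ψ z))))
      (US38.Rm P.d.w (fun a => ZW67.LP (2 * c.K) (Dp c P (Ψ z)) a) *ᵥ US38.imv (ep c P (Ψ z))) =
    US38.hm _ (SP38.DZ (fun z => Dp c P (Ψ' z)) z *ᵥ
      (US38.Rm P.d.w (fun a => ZW67.LP (2 * c.K) (Dp c P (Ψ' z)) a) *ᵥ US38.imv (ep c P (Ψ' z))))
      (US38.Rm P.d.w (fun a => ZW67.LP (2 * c.K) (Dp c P (Ψ' z)) a) *ᵥ US38.imv (ep c P (Ψ' z)))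
  rw [h1, h0]
  simp only [h0]

theorem conjS_inj {γ : Matrix ι ι ℚ} (hγ : IsUnit γ) {n n' : Submodule ℚ (Matrix ι ι ℚ)}
    (h : conjS γ n = conjS γ n') : n = n' := by
  obtain ⟨h1, h2⟩ := C8b_inv hγ
  have key : ∀ {n n' : Submodule ℚ (Matrix ι ι ℚ)}, conjS γ n = conjS γ n' → n ≤ n' := by
    intro n n' h A hA
    have h3 : γ * A * γ⁻¹ ∈ conjS γ n := by
      show γ⁻¹ * (γ * A * γ⁻¹) * γ ∈ n
      rw [← mul_assoc, ← mul_assoc, h2, one_mul, mul_assoc, h2, mul_one]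
      exact hA
    rw [h] at h3
    have h4 : γ⁻¹ * (γ * A * γ⁻¹) * γ ∈ n' := h3
    rw [← mul_assoc, ← mul_assoc, h2, one_mul, mul_assoc, h2, mul_one] at h4
    exact h4
  exact le_antisymm (key h) (key h.symm)

theorem conjS_surj {γ : Matrix ι ι ℚ} (hγ : IsUnit γ) (n' : Submodule ℚ (Matrix ι ι ℚ)) :
    ∃ n, conjS γ n = n' := by
  obtain ⟨h1, h2⟩ := C8b_inv hγ
  have h3 := C8b_inv (γ := γ⁻¹) ((Matrix.isUnit_nonsing_inv_iff).2 hγ)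
  refine ⟨conjS γ⁻¹ n', ?_⟩
  ext A
  show (γ⁻¹)⁻¹ * (γ⁻¹ * A * γ) * γ⁻¹ ∈ n' ↔ A ∈ n'
  have h4 : (γ⁻¹)⁻¹ = γ := Matrix.nonsing_inv_nonsing_inv _ ((Matrix.isUnit_iff_isUnit_det _).1 hγ)
  rw [h4, ← mul_assoc, ← mul_assoc, h1, one_mul, mul_assoc, h1, mul_one]

variable (c : Par wt p) (h : Setup wt p Q F s π Φ S M)
include c h

theorem compat (x : X) : ∀ᶠ x' in 𝓝 x, ∃ σ : Equiv.Perm (Fin M), ∀ᶠ v in 𝓝 (π x'), ∀ j,
    NN c h x' (σ j) v = NN c h x j v ∧ ∀ ξ, TT c h x' (σ j) v ξ = TT c h x j v ξ := by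
  have hπ := cov_cont h.cov
  obtain ⟨r, hr, hve, hml, -⟩ := loc_facts c h x
  obtain ⟨hl, ht⟩ := m_lie c h.var x
  have hZ : ∀ᶠ v₁ in 𝓝 (π x), ∀ n : {n // n ∈ S x},
      ((∀ᶠ v in 𝓝 v₁, fN c h x n v = 0) ↔ Zr c h x n) := by
    rw [Filter.eventually_all]
    exact Zr_near c h x
  filter_upwards [h.loc x, m_conj c hπ h.var x, (hπ.tendsto x).eventually hZ,
    (hπ.tendsto x).eventually (Metric.ball_mem_nhds (π x) hr)] with x' h1 h2 h3 h4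
  obtain ⟨γ, ⟨hγ, hγt, hγQ⟩, hΦ, hS⟩ := h1
  have hm' := h2 γ hγ hγt hΦ
  -- the bijection of the ideals
  let τ₀ : {n // n ∈ S x} → {n // n ∈ S x'} := fun n => ⟨conjS γ n.1, (hS n.1).1 n.2⟩
  have hτi : Function.Injective τ₀ := fun a b hab =>
    Subtype.ext (conjS_inj hγ (congrArg Subtype.val hab))
  have hτs : Function.Surjective τ₀ := by
    intro n'
    obtain ⟨n, hn⟩ := conjS_surj hγ n'.1
    exact ⟨⟨n, (hS n).2 (hn ▸ n'.2)⟩, Subtype.ext hn⟩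
  have hn' : ∀ n : {n // n ∈ S x}, (τ₀ n).1 = n.1.map (ZL19.cjg γ γ⁻¹) := fun n =>
    asm_conjS hγ n.1
  obtain ⟨r', hr', hve'⟩ := ve_ball h.var x'
  have hO1 : ∀ᶠ v in 𝓝 (π x'), Φ x' v = γ.map (algebraMap ℚ ℂ) * Φ x v ∧
      v ∈ Metric.ball (π x) r ∧ v ∈ Metric.ball (π x') r' :=
    hΦ.and (Filter.Eventually.and (Metric.isOpen_ball.mem_nhds h4)
      (Metric.ball_mem_nhds (π x') hr'))
  obtain ⟨O, hOe, hO, hπO⟩ := mem_nhds_iff.1 hO1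
  have hN : ∀ n, ∀ᶠ v in 𝓝 (π x'), fN c h x' (τ₀ n) v = fN c h x n v := by
    intro n
    filter_upwards [hΦ, Metric.isOpen_ball.mem_nhds h4, Metric.ball_mem_nhds (π x') hr'] with v hv
      hvb hvb'
    rw [fN, hv]
    exact n5N c hγ hγt hγQ hl ht (h.max x n.1 n.2) hm' (hn' n) _ _ (hve.mhs v hvb)
      (hv ▸ hve'.mhs v hvb') (hml v hvb)
  have hT : ∀ n, ∀ᶠ v in 𝓝 (π x'), ∀ ξ, fT c h x' (τ₀ n) v ξ = fT c h x n v ξ := by
    intro n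
    filter_upwards [hO.mem_nhds hπO] with v hvO ξ
    have hcont : Continuous fun τ : ℂ => v + τ • ξ := by fun_prop
    have h5 : Tendsto (fun τ : ℂ => v + τ • ξ) (𝓝 0) (𝓝 v) := by
      have := hcont.tendsto 0
      rwa [zero_smul, add_zero] at this
    have h6 : ∀ᶠ τ in 𝓝 (0 : ℂ), Φ x' (v + τ • ξ) =
        γ.map (algebraMap ℚ ℂ) * Φ x (v + τ • ξ) := by
      filter_upwards [h5.eventually (hO.eventually_mem hvO)] with τ hτ
      exact (hOe hτ).1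
    rw [fT, Tf_germ c _ h6]
    have hD : IsOpen ((fun τ : ℂ => v + τ • ξ) ⁻¹' O) := hO.preimage hcont
    have hVE := hve.comp Metric.isOpen_ball (b := fun τ : ℂ => v + τ • ξ)
      (D := (fun τ : ℂ => v + τ • ξ) ⁻¹' O)
      (fun z _ => analyticAt_const.add (analyticAt_id.smul analyticAt_const))
      fun z hz => (hOe hz).2.1
    refine n5T c hγ hγt hγQ hl ht (h.max x n.1 n.2) hm' (hn' n) _ _ hD hVE
      (fun z hz => ?_) (fun z hz => hml _ (hOe hz).2.1) ?_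
    · rw [← (hOe hz).1]
      exact hve'.mhs _ (hOe hz).2.2
    · show v + (0 : ℂ) • ξ ∈ O
      rw [zero_smul, add_zero]
      exact hvO
  have hZr : ∀ n, Zr c h x' (τ₀ n) ↔ Zr c h x n := by
    intro n
    rw [← h3 n]
    exact Filter.eventually_congr ((hN n).mono fun v hv => by rw [hv])
  let τ : BB c h x ≃ BB c h x' := Equiv.ofBijective
    (fun b => ⟨τ₀ b.1, fun hz => b.2 ((hZr b.1).1 hz)⟩)
    ⟨fun a b hab => Subtype.ext (hτi (congrArg Subtype.val hab)), fun b' => by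
      obtain ⟨n, hn⟩ := hτs b'.1
      exact ⟨⟨n, fun hz => b'.2 (by rw [← hn]; exact (hZr n).2 hz)⟩, Subtype.ext hn⟩⟩
  obtain ⟨σ, hσ1, hσ2⟩ := pad_perm (em c h) τ
  have hN' : ∀ᶠ v in 𝓝 (π x'), ∀ n, fN c h x' (τ₀ n) v = fN c h x n v := by
    rw [Filter.eventually_all]
    exact hN
  have hT' : ∀ᶠ v in 𝓝 (π x'), ∀ n, ∀ ξ, fT c h x' (τ₀ n) v ξ = fT c h x n v ξ := by
    rw [Filter.eventually_all]
    exact hT
  refine ⟨σ, ?_⟩
  filter_upwards [hN', hT'] with v hNv hTv j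
  rcases pad_cases (em c h) x j with ⟨b, rfl⟩ | hj
  · rw [hσ1, NN, NN, TT, TT, pad_apply, pad_apply, pad_apply, pad_apply]
    exact ⟨hNv b.1, hTv b.1⟩
  · rw [NN, NN, TT, TT, pad_of_not (hσ2 j hj), pad_of_not hj, pad_of_not (hσ2 j hj),
      pad_of_not hj]
    exact ⟨rfl, fun _ => rfl⟩

end AG25
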