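import Pool.Agent.LibAG25.H3
import Pool.Agent.LibAD19.N6
import Pool.Agent.LibAD19.N8
import Pool.Agent.LibAD19.N9b

/-!
Assembly of the family of germs, part 4: the functions along discs.
-/

open Matrix Complex Filter Topology
open scoped ContDiff

set_option linter.unusedSectionVars false

namespace AG25

open ZQ38 AD19
open AD67 (VarX IsLoc IsMon genAt IsCov)

variable {ι : Type} [Fintype ι] [DecidableEq ι] {X : Type} [TopologicalSpace X] {d s M : ℕ}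
  {wt p : ι → ℤ} {Q : Matrix ι ι ℚ} {π : X → Fin d → ℂ} {Φ : X → (Fin d → ℂ) → Matrix ι ι ℂ}
  {F : MvPolynomial (Fin d) ℂ} {S : X → Finset (Submodule ℚ (Matrix ι ι ℚ))}

variable (c : Par wt p) (h : Setup wt p Q F s π Φ S M)
include c h

/-- the restriction to a disc -/
theorem disc_loc (x : X) {b : ℂ → Fin d → ℂ} {t : ℂ} (hb : AnalyticAt ℂ b t) (hbt : b t = π x) :
    ∃ (D : Set ℂ) (r : ℝ), IsOpen D ∧ t ∈ D ∧ VE wt p Q D (fun z => Φ x (b z)) ∧
      (∀ z ∈ D, mtLie wt p (Φ x (b z)) ≤ gLie wt p (Φ x) (π x)) ∧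
      (∀ z ∈ D, ∀ n ∈ S x, TyOK wt p (gLie wt p (Φ x) (π x)) n (Φ x (b z))) ∧
      (∀ z ∈ D, AnalyticAt ℂ b z ∧ b z ∈ Metric.ball (π x) r) ∧
      VE wt p Q (Metric.ball (π x) r) (Φ x) := by
  obtain ⟨r, hr, hve, hml, hty⟩ := loc_facts c h x
  have h1 : ∀ᶠ z in 𝓝 t, AnalyticAt ℂ b z ∧ b z ∈ Metric.ball (π x) r := by
    refine hb.eventually_analyticAt.and ?_
    have h2 := hb.continuousAt.tendsto
    rw [hbt] at h2
    exact h2.eventually (Metric.ball_mem_nhds (π x) hr)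
  obtain ⟨D, hD1, hD, htD⟩ := mem_nhds_iff.1 h1
  refine ⟨D, r, hD, htD, ?_, fun z hz => hml _ (hD1 hz).2, fun z hz => hty _ (hD1 hz).2,
    fun z hz => hD1 hz, hve⟩
  exact hve.comp Metric.isOpen_ball (fun z hz => (hD1 hz).1) fun z hz => (hD1 hz).2

theorem fN_disc (x : X) (n : {n // n ∈ S x}) {b : ℂ → Fin d → ℂ} {t : ℂ}
    (hb : AnalyticAt ℂ b t) (hbt : b t = π x) :
    (∀ᶠ t' in 𝓝 t, fN c h x n (b t') = 0) ∨
      ((PK c h x n).d.w ≤ -3 ∧ ∀ᶠ t' in 𝓝[≠] t, fN c h x n (b t') ≠ 0) := by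
  obtain ⟨D, r, hD, htD, hve, hml, hty, -, -⟩ := disc_loc c h x hb hbt
  obtain ⟨hl, ht⟩ := m_lie c h.var x
  exact disc_dich' (c := c) hD hve hl ht hml (h.max x n.1 n.2).le
    (fun z hz => hty z hz n.1 n.2) (PK c h x n) htD

theorem fN_smooth (x : X) (n : {n // n ∈ S x}) {b : ℂ → Fin d → ℂ} {t : ℂ}
    (hb : AnalyticAt ℂ b t) (hbt : b t = π x) :
    ContDiffAt ℝ ∞ (fun t => fN c h x n (b t)) t := by
  obtain ⟨D, r, hD, htD, hve, -, -, -, -⟩ := disc_loc c h x hb hbt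
  exact (Nf_an (c := c) hve (PK c h x n) t htD).contDiffAt

theorem fT_disc (x : X) (n : {n // n ∈ S x}) {b : ℂ → Fin d → ℂ} {t : ℂ}
    (hb : AnalyticAt ℂ b t) (hbt : b t = π x) :
    (fun t => fT c h x n (b t) (deriv b t)) =ᶠ[𝓝 t]
      fun t => Tf c (PK c h x n) (fun z => Φ x (b z)) t := by
  obtain ⟨D, r, hD, htD, -, -, -, hbD, hve⟩ := disc_loc c h x hb hbt
  filter_upwards [hD.mem_nhds htD] with z hz
  exact (Tf_chain (c := c) Metric.isOpen_ball hve (PK c h x n) (hbD z hz).1 (hbD z hz).2).symm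

theorem disc_all (x : X) (n : {n // n ∈ S x}) {b : ℂ → Fin d → ℂ} {t : ℂ}
    (hb : AnalyticAt ℂ b t) (hbt : b t = π x) (hw : (PK c h x n).d.w ≤ -3) :
    0 ≤ Ef c (PK c h x n) (fun z => Φ x (b z)) t ∧
    ContDiffAt ℝ ∞ (fun t => fT c h x n (b t) (deriv b t)) t ∧
    ‖fT c h x n (b t) (deriv b t)‖ ≤
      √(Ef c (PK c h x n) (fun z => Φ x (b z)) t) * fN c h x n (b t) ∧
    ∀ ε : ℝ, 0 < ε → -(2 * Ef c (PK c h x n) (fun z => Φ x (b z)) t) ≤
      US38.rho (US38.jj (fun t => ((fN c h x n (b t) : ℝ) : ℂ))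
        (fun t => fT c h x n (b t) (deriv b t)) ε) t := by
  obtain ⟨D, r, hD, htD, hve, hml, hty, -, -⟩ := disc_loc c h x hb hbt
  obtain ⟨hl, ht⟩ := m_lie c h.var x
  obtain ⟨h1, h2, h3, h4⟩ := disc_pt (c := c) hD hve hl ht hml (h.max x n.1 n.2).le
    (fun z hz => hty z hz n.1 n.2) (PK c h x n) hw htD
  have h5 := fT_disc c h x n hb hbt
  refine ⟨h1, h2.congr_of_eventuallyEq h5, ?_, fun ε hε => ?_⟩
  · have h6 := h5.self_of_nhds
    simp only at h6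
    rw [h6]
    exact h3
  · refine (h4 ε hε).trans (le_of_eq ?_)
    have h7 : US38.jj (fun z => ((Nf c (PK c h x n) (Φ x (b z)) : ℝ) : ℂ))
        (fun z => Tf c (PK c h x n) (fun z => Φ x (b z)) z) ε =ᶠ[𝓝 t]
        US38.jj (fun t => ((fN c h x n (b t) : ℝ) : ℂ))
        (fun t => fT c h x n (b t) (deriv b t)) ε := by
      filter_upwards [h5] with z hz
      rw [US38.jj, US38.jj, hz]
      rfl
    rw [US38.rho, US38.rho, SP38.dzb_congr h7]

/-! ### the padded family -/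

theorem NN_nn (x : X) (j : Fin M) : ∀ᶠ v in 𝓝 (π x), 0 ≤ NN c h x j v := by
  rcases pad_cases (em c h) x j with ⟨b, rfl⟩ | hj
  · rw [NN, pad_apply]
    exact fN_nn c h x b.1
  · rw [NN, pad_of_not hj]
    exact Filter.Eventually.of_forall fun _ => zero_le_one

theorem NN_dens (x : X) (j : Fin M) : ∃ R ∈ residual (Fin d → ℂ), ∀ᶠ v in 𝓝 (π x), v ∈ R →
    NN c h x j v ≠ 0 := by
  rcases pad_cases (em c h) x j with ⟨b, rfl⟩ | hj
  · rw [NN, pad_apply]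
    exact (fN_dich c h x b.1).resolve_left b.2
  · rw [NN, pad_of_not hj]
    exact ⟨Set.univ, Filter.univ_mem, Filter.Eventually.of_forall fun _ _ => one_ne_zero⟩

theorem NN_dich (x : X) (b : ℂ → Fin d → ℂ) (t : ℂ) (hb : AnalyticAt ℂ b t) (hbt : b t = π x)
    (j : Fin M) : (∀ᶠ t' in 𝓝 t, NN c h x j (b t') = 0) ∨
      ∀ᶠ t' in 𝓝[≠] t, NN c h x j (b t') ≠ 0 := by
  rcases pad_cases (em c h) x j with ⟨n, rfl⟩ | hj
  · rw [NN, pad_apply]
    rcases fN_disc c h x n.1 hb hbt with h1 | h1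
    · exact Or.inl h1
    · exact Or.inr h1.2
  · rw [NN, pad_of_not hj]
    exact Or.inr (Filter.Eventually.of_forall fun _ => one_ne_zero)

/-- the weight is at most `-3` on a generic disc -/
theorem w_le (x : X) (b : ℂ → Fin d → ℂ) (t : ℂ) (hb : AnalyticAt ℂ b t) (hbt : b t = π x)
    (hG : Gp (NN c h) x b t) (n : BB c h x) : (PK c h x n.1).d.w ≤ -3 := by
  rcases fN_disc c h x n.1 hb hbt with h1 | h1
  · exfalso
    have h2 := hG (em c h x n)
    rw [NN, pad_apply] at h2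
    refine h2 ?_
    filter_upwards [h1] with t' ht'
    simpa using ht'
  · exact h1.1

theorem NN_smooth (x : X) (b : ℂ → Fin d → ℂ) (t : ℂ) (hb : AnalyticAt ℂ b t) (hbt : b t = π x)
    (j : Fin M) : ContDiffAt ℝ ∞ (fun t => NN c h x j (b t)) t := by
  rcases pad_cases (em c h) x j with ⟨n, rfl⟩ | hj
  · rw [NN, pad_apply]
    exact fN_smooth c h x n.1 hb hbt
  · rw [NN, pad_of_not hj]
    exact contDiffAt_const

theorem TT_smooth (x : X) (b : ℂ → Fin d → ℂ) (t : ℂ) (hb : AnalyticAt ℂ b t) (hbt : b t = π x)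
    (hG : Gp (NN c h) x b t) (j : Fin M) :
    ContDiffAt ℝ ∞ (fun t => TT c h x j (b t) (deriv b t)) t := by
  rcases pad_cases (em c h) x j with ⟨n, rfl⟩ | hj
  · rw [TT, pad_apply]
    exact (disc_all c h x n.1 hb hbt (w_le c h x b t hb hbt hG n)).2.1
  · rw [TT, pad_of_not hj]
    exact contDiffAt_const

end AG25
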