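import Pool.Agent.LibAG25.H4
import Pool.Agent.LibAD67.W3

/-! The energy density of the graded pieces. -/

open Matrix Complex Filter Topology
open scoped ComplexOrder

set_option linter.unusedSectionVars false

namespace AG25

open ZQ38 AD19

variable {ι : Type} [Fintype ι] [DecidableEq ι] {wt p : ι → ℤ} {Q : Matrix ι ι ℚ}
  {m n : Submodule ℚ (Matrix ι ι ℚ)}

theorem EG_nn (c : Par wt p) {Ψ : ℂ → Matrix ι ι ℂ} {z : ℂ}
    (hA : MW38.MHS wt p (Q.map (algebraMap ℚ ℝ)) (Ψ z)) : 0 ≤ EG c Q Ψ z := by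
  have h1 : (ZW67.MM wt c.K (Q.map (algebraMap ℚ ℝ)) (PPg wt p c.s (Ψ z))).PosDef :=
    (ZW67.polG hA c.hs c.hK).posDef
  have h2 := h1.inv.posSemidef
  rw [EG]
  obtain ⟨B, hB⟩ : ∃ B : Matrix ι ι ℂ,
      (ZW67.MM wt c.K (Q.map (algebraMap ℚ ℝ)) (PPg wt p c.s (Ψ z)))⁻¹ = Bᴴ * B := by
    open scoped MatrixOrder in
    exact CStarAlgebra.nonneg_iff_eq_star_mul_self.mp h2.nonneg
  set Mx := ZW67.MM wt c.K (Q.map (algebraMap ℚ ℝ)) (PPg wt p c.s (Ψ z)) with hM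
  set X := SP38.DZ (fun z => pg c (Ψ z)) z with hX
  have h3 : (B * (Xᴴ * Mx * X) * Bᴴ).PosSemidef :=
    (h1.posSemidef.conjTranspose_mul_mul_same X).mul_mul_conjTranspose_same B
  have h4 : Matrix.trace (Mx⁻¹ * Xᴴ * Mx * X) = Matrix.trace (B * (Xᴴ * Mx * X) * Bᴴ) := by
    rw [Matrix.trace_mul_comm (B * (Xᴴ * Mx * X)) Bᴴ, ← Matrix.mul_assoc, ← hB]
    simp only [Matrix.mul_assoc]
  rw [h4]
  have h5 := h3.trace_nonneg
  exact (Complex.le_def.1 h5).1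

theorem Ef_le' (c : Par wt p) {D : Set ℂ} (hD : IsOpen D) {Ψ : ℂ → Matrix ι ι ℂ}
    (hv : VE wt p Q D Ψ) (hlie : IsLie m) (htri : ∀ B ∈ m, MW38.Tri wt B)
    (hm : ∀ z ∈ D, mtLie wt p (Ψ z) ≤ m) (P : Pk wt Q m n) {z : ℂ} (hz : z ∈ D) :
    Ef c P Ψ z ≤ 4 * (Fintype.card ι : ℝ) ^ 2 * EG c Q Ψ z :=
  AD67.Ef_le hD hv hlie htri hm P hz

end AG25
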